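import Pool.Agent.W401.Cheb.AbsDefs

/-! Existence and conjugacy of Frobenius elements in the absolute Galois group.  (Proved by helper327; this is
a copy of the file `Pool.Agent.W327.Cheb.ChFrob` without its local notation.) -/

set_option autoImplicit false
set_option linter.unusedSectionVars false

namespace Pool.Agent.W401.Frob

open NumberField IsDedekindDomain Pool.Agent.W401.Cheb

section
variable {K : Type} [Field K] [NumberField K]


theorem coe_smul (σ : GK K) (x : (𝓞 (AlgebraicClosure K))) : ((σ • x : (𝓞 (AlgebraicClosure K))) : AlgebraicClosure K) = σ x := rfl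

theorem smulComm : SMulCommClass (GK K) (𝓞 K) (𝓞 (AlgebraicClosure K)) := by
  refine ⟨fun g a b => ?_⟩
  apply RingOfIntegers.ext
  rw [coe_smul, Algebra.smul_def, Algebra.smul_def]
  show g ((algebraMap (𝓞 K) (𝓞 (AlgebraicClosure K)) a : (𝓞 (AlgebraicClosure K))) * (b : AlgebraicClosure K)) =
    (algebraMap (𝓞 K) (𝓞 (AlgebraicClosure K)) a : (𝓞 (AlgebraicClosure K))) * g b
  rw [map_mul]
  congr 1
  exact g.commutes (a : K)

theorem isInv : Algebra.IsInvariant (𝓞 K) (𝓞 (AlgebraicClosure K)) (GK K) := by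
  refine ⟨fun b hb => ?_⟩
  have h1 : (b : AlgebraicClosure K) ∈ (⊥ : IntermediateField K (AlgebraicClosure K)) := by
    rw [InfiniteGalois.mem_bot_iff_fixed]
    intro g
    have := congrArg (fun z : (𝓞 (AlgebraicClosure K)) => (z : AlgebraicClosure K)) (hb g)
    exact this
  obtain ⟨k, hk⟩ := IntermediateField.mem_bot.1 h1
  have h2 : IsIntegral ℤ k := by
    have h3 : IsIntegral ℤ (algebraMap K (AlgebraicClosure K) k) := by
      rw [hk]
      exact b.2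
    exact (isIntegral_algebraMap_iff (algebraMap K (AlgebraicClosure K)).injective).1 h3
  refine ⟨⟨k, h2⟩, ?_⟩
  apply RingOfIntegers.ext
  exact hk

theorem smul_alg (ρ : GK K) (a : 𝓞 K) : ρ • (algebraMap (𝓞 K) (𝓞 (AlgebraicClosure K)) a) = algebraMap (𝓞 K) (𝓞 (AlgebraicClosure K)) a := by
  apply RingOfIntegers.ext
  exact ρ.commutes (a : K)

/-- the transported ideal -/
noncomputable def tr (ρ : GK K) (Q : Ideal (𝓞 (AlgebraicClosure K))) : Ideal (𝓞 (AlgebraicClosure K)) :=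
  Q.comap (MulSemiringAction.toRingHom (GK K) (𝓞 (AlgebraicClosure K)) ρ⁻¹)

theorem mem_tr {ρ : GK K} {Q : Ideal (𝓞 (AlgebraicClosure K))} {x : (𝓞 (AlgebraicClosure K))} : x ∈ tr ρ Q ↔ ρ⁻¹ • x ∈ Q := Iff.rfl

theorem tr_max (ρ : GK K) (Q : Ideal (𝓞 (AlgebraicClosure K))) (hQ : Q.IsMaximal) : (tr ρ Q).IsMaximal := by
  refine Ideal.comap_isMaximal_of_surjective _ fun x => ⟨ρ • x, ?_⟩
  exact inv_smul_smul ρ x

theorem tr_comap (ρ : GK K) (Q : Ideal (𝓞 (AlgebraicClosure K))) :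
    (tr ρ Q).comap (algebraMap (𝓞 K) (𝓞 (AlgebraicClosure K))) = Q.comap (algebraMap (𝓞 K) (𝓞 (AlgebraicClosure K))) := by
  ext a
  rw [Ideal.mem_comap, Ideal.mem_comap, mem_tr, smul_alg]

theorem frob_conj (v : HeightOneSpectrum (𝓞 K)) (σ ρ : GK K) (Q : Ideal (𝓞 (AlgebraicClosure K)))
    (h : ∀ x : (𝓞 (AlgebraicClosure K)), σ • x - x ^ Ideal.absNorm v.asIdeal ∈ Q) (x : (𝓞 (AlgebraicClosure K))) :
    (ρ * σ * ρ⁻¹) • x - x ^ Ideal.absNorm v.asIdeal ∈ tr ρ Q := by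
  rw [mem_tr, smul_sub, smul_pow', smul_smul]
  have h1 := h (ρ⁻¹ • x)
  rw [smul_smul] at h1
  have h2 : ρ⁻¹ * (ρ * σ * ρ⁻¹) = σ * ρ⁻¹ := by group
  rw [h2]
  exact h1

theorem exists_frob (v : HeightOneSpectrum (𝓞 K)) : ∃ σ : GK K, IsFrob v σ := by
  classical
  have : SMulCommClass (GK K) (𝓞 K) (𝓞 (AlgebraicClosure K)) := smulComm
  have : Algebra.IsInvariant (𝓞 K) (𝓞 (AlgebraicClosure K)) (GK K) := isInv
  let _ : TopologicalSpace (𝓞 (AlgebraicClosure K)) := ⊥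
  have : DiscreteTopology (𝓞 (AlgebraicClosure K)) := ⟨rfl⟩
  have : ContinuousSMul (GK K) (𝓞 (AlgebraicClosure K)) := by
    rw [continuousSMul_iff_stabilizer_isOpen]
    intro x
    have h1 := stabilizer_isOpen_of_isIntegral (K := K) (x : AlgebraicClosure K)
    convert h1 using 2
    ext g
    rw [MulAction.mem_stabilizer_iff, MulAction.mem_stabilizer_iff]
    constructor
    · intro h
      exact congrArg (fun z : (𝓞 (AlgebraicClosure K)) => (z : AlgebraicClosure K)) h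
    · intro h
      exact RingOfIntegers.ext h
  have hvm : v.asIdeal.IsMaximal := v.isMaximal
  obtain ⟨Q, hQm, hQv⟩ := Ideal.exists_ideal_over_maximal_of_isIntegral (S := (𝓞 (AlgebraicClosure K))) v.asIdeal (by
    rw [(RingHom.injective_iff_ker_eq_bot _).1 (FaithfulSMul.algebraMap_injective (𝓞 K) (𝓞 (AlgebraicClosure K)))]
    exact bot_le)
  have : Q.LiesOver v.asIdeal := ⟨hQv.symm⟩
  let _ : Field (𝓞 K ⧸ v.asIdeal) := Ideal.Quotient.field v.asIdeal
  let _ : Field ((𝓞 (AlgebraicClosure K)) ⧸ Q) := Ideal.Quotient.field Q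
  have : Finite (𝓞 K ⧸ v.asIdeal) := Ideal.finiteQuotientOfFreeOfNeBot v.asIdeal v.ne_bot
  let _ : Fintype (𝓞 K ⧸ v.asIdeal) := Fintype.ofFinite _
  have : Algebra.IsAlgebraic (𝓞 K ⧸ v.asIdeal) ((𝓞 (AlgebraicClosure K)) ⧸ Q) := by
    have : Algebra.IsIntegral (𝓞 K ⧸ v.asIdeal) ((𝓞 (AlgebraicClosure K)) ⧸ Q) := inferInstance
    exact Algebra.IsIntegral.isAlgebraic
  obtain ⟨g, hg⟩ := Ideal.Quotient.stabilizerHom_surjective_of_profinite (G := GK K) v.asIdeal Q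
    (FiniteField.frobeniusAlgEquivOfAlgebraic (𝓞 K ⧸ v.asIdeal) ((𝓞 (AlgebraicClosure K)) ⧸ Q))
  refine ⟨g.1, Q, hQm, hQv, fun x => ?_⟩
  have h1 := DFunLike.congr_fun hg (Ideal.Quotient.mk Q x)
  rw [Ideal.Quotient.stabilizerHom_apply] at h1
  rw [← Ideal.Quotient.mk_eq_mk_iff_sub_mem, map_pow]
  have h2 : Ideal.absNorm v.asIdeal = Fintype.card (𝓞 K ⧸ v.asIdeal) := by
    rw [Ideal.absNorm_apply, Submodule.cardQuot_apply, Nat.card_eq_fintype_card]
  rw [h2]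
  exact h1

theorem conj_frob (v : HeightOneSpectrum (𝓞 K)) (σ τ : GK K) (hσ : IsFrob v σ) (hτ : IsFrob v τ) :
    ∃ ρ ι : GK K, IsInert v ι ∧ τ = ρ * σ * ρ⁻¹ * ι := by
  classical
  have : SMulCommClass (GK K) (𝓞 K) (𝓞 (AlgebraicClosure K)) := smulComm
  have : Algebra.IsInvariant (𝓞 K) (𝓞 (AlgebraicClosure K)) (GK K) := isInv
  let _ : TopologicalSpace (𝓞 (AlgebraicClosure K)) := ⊥
  have : DiscreteTopology (𝓞 (AlgebraicClosure K)) := ⟨rfl⟩
  have : ContinuousSMul (GK K) (𝓞 (AlgebraicClosure K)) := by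
    rw [continuousSMul_iff_stabilizer_isOpen]
    intro x
    have h1 := stabilizer_isOpen_of_isIntegral (K := K) (x : AlgebraicClosure K)
    convert h1 using 2
    ext g
    rw [MulAction.mem_stabilizer_iff, MulAction.mem_stabilizer_iff]
    constructor
    · intro h
      exact congrArg (fun z : (𝓞 (AlgebraicClosure K)) => (z : AlgebraicClosure K)) h
    · intro h
      exact RingOfIntegers.ext h
  obtain ⟨Q, hQm, hQv, hQ⟩ := hσ
  obtain ⟨Q', hQm', hQv', hQ'⟩ := hτ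
  obtain ⟨ρ, hρ⟩ := Algebra.IsInvariant.exists_smul_of_under_eq_of_profinite (A := 𝓞 K)
    (G := GK K) Q Q' (hQv.trans hQv'.symm)
  have hρ' : Q' = tr ρ Q := by
    rw [hρ]
    ext x
    rw [mem_tr]
    exact Ideal.mem_pointwise_smul_iff_inv_smul_mem
  set s : GK K := ρ * σ * ρ⁻¹ with hs
  have hsF : ∀ x : (𝓞 (AlgebraicClosure K)), s • x - x ^ Ideal.absNorm v.asIdeal ∈ Q' := by
    intro x
    rw [hρ']
    exact frob_conj v σ ρ Q hQ x
  refine ⟨ρ, s⁻¹ * τ, ⟨Q', hQm', hQv', fun x => ?_⟩, by rw [← hs]; group⟩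
  set y : (𝓞 (AlgebraicClosure K)) := (s⁻¹ * τ) • x - x with hy
  have h1 : s • y ∈ Q' := by
    have h2 : s • y = (τ • x - x ^ Ideal.absNorm v.asIdeal) -
        (s • x - x ^ Ideal.absNorm v.asIdeal) := by
      rw [hy, smul_sub, smul_smul, mul_inv_cancel_left]
      ring
    rw [h2]
    exact Q'.sub_mem (hQ' x) (hsF x)
  have h3 : y ^ Ideal.absNorm v.asIdeal ∈ Q' := by
    have h4 := Q'.sub_mem h1 (hsF y)
    rwa [sub_sub_cancel] at h4
  exact hQm'.isPrime.mem_of_pow_mem _ h3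

end

theorem main : TaskFrob := by
  intro K _ _
  refine ⟨exists_frob, conj_frob, fun v σ ρ hσ => ?_⟩
  obtain ⟨Q, hQm, hQv, hQ⟩ := hσ
  exact ⟨tr ρ Q, tr_max ρ Q hQm, (tr_comap ρ Q).trans hQv, frob_conj v σ ρ Q hQ⟩

end Pool.Agent.W401.Frob
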