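import Pool.Agent.W352.ChAbs.Main
import Pool.Agent.W401.Cheb.Main

/-! Chebotarev's theorem for the absolute Galois group of a number field. -/

set_option autoImplicit false

namespace Pool.Agent.W401.Cheb

/-- **Chebotarev's theorem** for the absolute Galois group of a number field -/
theorem chebK : ChebK := Pool.Agent.W352.ChAbs.main chebotarev W54.ChTor.main

end Pool.Agent.W401.Cheb
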